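import Mathlib

namespace Pool.Agent.Results.MP_c3beeb_co.NoFiniteFamily

open scoped Classical in
/-- Two letters `x`, `y` alternate in the finite word `w` : both occur in `w`, and in the word
obtained from `w` by deleting every other letter no two consecutive letters are equal (for
distinct `x`, `y` this says that the remaining word has the form `xyxy⋯` or `yxyx⋯`). -/
def Alternate {α : Type} (w : List α) (x y : α) : Prop :=
  x ∈ w ∧ y ∈ w ∧ (w.filter (fun z => decide (z = x ∨ z = y))).IsChain (fun a b => a ≠ b)

/-- A graph is (word-)representable if it is the alternating graph of some word over its vertex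
set in which every vertex occurs. -/
def Representable {α : Type} (G : SimpleGraph α) : Prop :=
  ∃ w : List α, (∀ v, v ∈ w) ∧ ∀ x y, x ≠ y → (G.Adj x y ↔ Alternate w x y)

section words
open scoped Classical

variable {α : Type}

/-- initial-segment count condition: `x` is always ahead of `y` by `0` or `1`. -/
def Ahead (w : List α) (x y : α) : Prop :=
  ∀ t : ℕ, (w.take t).count y ≤ (w.take t).count x ∧ (w.take t).count x ≤ (w.take t).count y + 1

lemma ahead_iff (w : List α) : ∀ (x y : α), x ≠ y →
    (Ahead w x y ↔ ((w.filter (fun z => decide (z = x ∨ z = y))).IsChain (fun a b => a ≠ b) ∧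
      (w.filter (fun z => decide (z = x ∨ z = y))).head? ≠ some y)) := by
  induction w with
  | nil => intro x y _; simp [Ahead]
  | cons z w ih =>
    intro x y hxy
    by_cases hzx : z = x
    · subst hzx
      have h1 : (z :: w).filter (fun a => decide (a = z ∨ a = y)) =
          z :: (w.filter (fun a => decide (a = y ∨ a = z))) := by
        rw [List.filter_cons_of_pos (by simp)]
        congr 1
        apply List.filter_congr
        intro a _
        simp [or_comm]
      rw [h1, List.isChain_cons]
      have h2 := ih y z (Ne.symm hxy)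
      have h3 : Ahead (z :: w) z y ↔ Ahead w y z := by
        constructor
        · intro h t
          have := h (t+1)
          simp only [List.take_succ_cons, List.count_cons_self, List.count_cons_of_ne hxy] at this
          omega
        · intro h t
          cases t with
          | zero => simp
          | succ t =>
            have := h t
            simp only [List.take_succ_cons, List.count_cons_self, List.count_cons_of_ne hxy]
            omega
      rw [h3, h2]
      constructor
      · rintro ⟨ha, hb⟩
        refine ⟨⟨?_, ha⟩, ?_⟩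
        · intro a haa hza
          subst hza
          apply hb
          simpa using haa
        · simpa using hxy
      · rintro ⟨⟨ha, hb⟩, _⟩
        refine ⟨hb, ?_⟩
        intro hh
        exact ha z (by simpa using hh) rfl
    · by_cases hzy : z = y
      · subst hzy
        constructor
        · intro h
          have := (h 1).1
          simp [List.take, List.count_cons_of_ne, hxy.symm] at this
        · rintro ⟨_, h⟩
          exfalso
          apply h
          rw [List.filter_cons_of_pos (by simp)]
          simp
      · rw [List.filter_cons_of_neg (by simp [hzx, hzy])]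
        rw [← ih x y hxy]
        constructor
        · intro h t
          have := h (t+1)
          simpa [List.take_succ_cons, List.count_cons_of_ne hzx, List.count_cons_of_ne hzy]
            using this
        · intro h t
          cases t with
          | zero => simp
          | succ t =>
            have := h t
            simpa [List.take_succ_cons, List.count_cons_of_ne hzx, List.count_cons_of_ne hzy]
              using this

lemma not_ahead_both (w : List α) {x y : α} (hxy : x ≠ y) (hx : x ∈ w)
    (h1 : Ahead w x y) (h2 : Ahead w y x) : False := by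
  have a1 := ((ahead_iff w x y hxy).1 h1).2
  have a2 := ((ahead_iff w y x hxy.symm).1 h2).2
  have e : w.filter (fun a => decide (a = y ∨ a = x)) =
      w.filter (fun a => decide (a = x ∨ a = y)) := by
    apply List.filter_congr
    intro a _
    simp [or_comm]
  rw [e] at a2
  have hne : w.filter (fun a => decide (a = x ∨ a = y)) ≠ [] := by
    intro h
    have : x ∈ w.filter (fun a => decide (a = x ∨ a = y)) := by
      simp [hx]
    rw [h] at this
    simp at this
  obtain ⟨b, l, hb⟩ := List.exists_cons_of_ne_nil hne
  rw [hb] at a1 a2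
  have hbm : b ∈ w.filter (fun a => decide (a = x ∨ a = y)) := by rw [hb]; simp
  rw [List.mem_filter] at hbm
  have := hbm.2
  simp at this
  rcases this with h | h
  · subst h; simp at a2
  · subst h; simp at a1

lemma alternate_iff (w : List α) {x y : α} (hxy : x ≠ y) (hx : x ∈ w) (hy : y ∈ w) :
    Alternate w x y ↔ (Ahead w x y ∨ Ahead w y x) := by
  unfold Alternate
  have e : w.filter (fun a => decide (a = y ∨ a = x)) =
      w.filter (fun a => decide (a = x ∨ a = y)) := by
    apply List.filter_congr
    intro a _
    simp [or_comm]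
  rw [ahead_iff w x y hxy, ahead_iff w y x hxy.symm, e]
  constructor
  · rintro ⟨_, _, h⟩
    by_cases hh : (w.filter (fun z => decide (z = x ∨ z = y))).head? = some y
    · right
      refine ⟨h, ?_⟩
      rw [hh]
      simp [hxy.symm]
    · left
      exact ⟨h, hh⟩
  · rintro (⟨h, _⟩ | ⟨h, _⟩)
    · exact ⟨hx, hy, h⟩
    · exact ⟨hx, hy, h⟩

/-- Order-theoretic consequence of representability. -/
lemma exists_order {G : SimpleGraph α} (h : Representable G) :
    ∃ lt : α → α → Prop, (∀ x, ¬ lt x x) ∧ (∀ x y z, lt x y → lt y z → lt x z) ∧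
      (∀ x y, G.Adj x y → lt x y ∨ lt y x) ∧
      (∀ x y z, lt x y → lt y z → G.Adj x z → G.Adj x y ∧ G.Adj y z) := by
  obtain ⟨w, hw, hadj⟩ := h
  have key : ∀ x y, x ≠ y → (G.Adj x y ↔ (Ahead w x y ∨ Ahead w y x)) := by
    intro x y hxy
    rw [hadj x y hxy, alternate_iff w hxy (hw x) (hw y)]
  refine ⟨fun x y => x ≠ y ∧ ∀ t, (w.take t).count y ≤ (w.take t).count x, ?_, ?_, ?_, ?_⟩
  · intro x h; exact h.1 rfl
  · rintro x y z ⟨hxy, h1⟩ ⟨hyz, h2⟩
    refine ⟨?_, fun t => (h2 t).trans (h1 t)⟩
    rintro rfl
    apply not_ahead_both w hxy (hw x)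
    · intro t; have := h1 t; have := h2 t; omega
    · intro t; have := h1 t; have := h2 t; omega
  · intro x y hxy
    rcases (key x y hxy.ne).1 hxy with h | h
    · left; exact ⟨hxy.ne, fun t => (h t).1⟩
    · right; exact ⟨hxy.ne.symm, fun t => (h t).1⟩
  · rintro x y z ⟨hxy, h1⟩ ⟨hyz, h2⟩ hxz
    have h3 : ∀ t, (w.take t).count x ≤ (w.take t).count z + 1 := by
      intro t
      rcases (key x z hxz.ne).1 hxz with h | h
      · exact (h t).2
      · have := (h t).1; omega
    constructor
    · rw [key x y hxy]
      left
      intro t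
      have := h1 t; have := h2 t; have := h3 t
      omega
    · rw [key y z hyz]
      left
      intro t
      have := h1 t; have := h2 t; have := h3 t
      omega

end words

section circle
open scoped Classical

variable {E : Type}

lemma alternate_symm (w : List E) {x y : E} : Alternate w x y ↔ Alternate w y x := by
  unfold Alternate
  have e : w.filter (fun a => decide (a = y ∨ a = x)) =
      w.filter (fun a => decide (a = x ∨ a = y)) := by
    apply List.filter_congr
    intro a _
    simp [or_comm]
  rw [e]
  tauto

lemma filterMap_range_eq {β : Type} (h : ℕ → Option β) (B : ℕ) (ps : List ℕ) (hs : ps.SortedLT)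
    (hB : ∀ t ∈ ps, t < B) (hn : ∀ t, t ∉ ps → h t = none) :
    (List.range B).filterMap h = ps.filterMap h := by
  have h1 : (List.range B).filter (fun t => decide (t ∈ ps)) = ps := by
    apply List.SortedLT.eq_of_mem_iff
    · rw [List.sortedLT_iff_pairwise]
      exact List.pairwise_lt_range.filter _
    · exact hs
    · intro a
      rw [List.mem_filter]
      simp only [List.mem_range, decide_eq_true_eq]
      exact ⟨fun h => h.2, fun h => ⟨hB a h, h⟩⟩
  conv_rhs => rw [← h1]
  rw [List.filterMap_filter]
  congr 1
  funext t
  by_cases ht : t ∈ ps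
  · simp [ht]
  · simp [ht, hn t ht]

/-- circle graphs are word-representable -/
lemma representable_of_intervals [Finite E] (G : SimpleGraph E) (l u : E → ℕ)
    (hlu : ∀ e, l e < u e) (hl : ∀ e f, l e = l f → e = f) (hu : ∀ e f, u e = u f → e = f)
    (hne : ∀ e f, l e ≠ u f)
    (hadj : ∀ e f, l e < l f → (G.Adj e f ↔ (l f < u e ∧ u e < u f))) :
    Representable G := by
  obtain ⟨B, hB⟩ : ∃ B, ∀ e, u e < B := by
    cases nonempty_fintype E
    refine ⟨Finset.univ.sup u + 1, fun e => ?_⟩
    have := Finset.le_sup (f := u) (Finset.mem_univ e)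
    omega
  set g : ℕ → Option E := fun t => if h : ∃ e, l e = t ∨ u e = t then some h.choose else none
    with hg
  have gspec : ∀ t e, (l e = t ∨ u e = t) → g t = some e := by
    intro t e he
    have hex : ∃ e, l e = t ∨ u e = t := ⟨e, he⟩
    rw [hg]
    simp only [dif_pos hex]
    congr 1
    have hc := hex.choose_spec
    rcases he with he | he <;> rcases hc with hc | hc
    · exact hl _ _ (hc.trans he.symm)
    · exact absurd (he.trans hc.symm) (hne _ _)
    · exact absurd (hc.trans he.symm) (hne _ _)
    · exact hu _ _ (hc.trans he.symm)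
  have gnone : ∀ t, (¬ ∃ e, l e = t ∨ u e = t) → g t = none := by
    intro t ht
    rw [hg]
    simp only [dif_neg ht]
  have gsome : ∀ t e, g t = some e → (l e = t ∨ u e = t) := by
    intro t e he
    by_cases ht : ∃ e, l e = t ∨ u e = t
    · obtain ⟨f, hf⟩ := ht
      rw [gspec t f hf] at he
      have : f = e := by simpa using he
      exact this ▸ hf
    · rw [gnone t ht] at he
      simp at he
  have hmem : ∀ v, v ∈ (List.range B).filterMap g := by
    intro v
    rw [List.mem_filterMap]
    exact ⟨l v, by rw [List.mem_range]; exact (hlu v).trans (hB v), gspec _ _ (Or.inl rfl)⟩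
  have main : ∀ x y, l x < l y → (Alternate ((List.range B).filterMap g) x y ↔
      (l y < u x ∧ u x < u y)) := by
    intro x y hxy
    have hxy' : x ≠ y := by rintro rfl; exact lt_irrefl _ hxy
    unfold Alternate
    rw [List.filter_filterMap]
    set h : ℕ → Option E := fun t => Option.filter (fun z => decide (z = x ∨ z = y)) (g t) with hh
    have hlx : h (l x) = some x := by rw [hh]; simp [gspec (l x) x (Or.inl rfl)]
    have hux : h (u x) = some x := by rw [hh]; simp [gspec (u x) x (Or.inr rfl)]
    have hly : h (l y) = some y := by rw [hh]; simp [gspec (l y) y (Or.inl rfl)]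
    have huy : h (u y) = some y := by rw [hh]; simp [gspec (u y) y (Or.inr rfl)]
    have hnone : ∀ t, t ≠ l x → t ≠ u x → t ≠ l y → t ≠ u y → h t = none := by
      intro t h1 h2 h3 h4
      rw [hh]
      simp only
      rw [Option.filter_eq_none_iff]
      intro e he
      simp only [decide_eq_true_eq, not_or]
      have := gsome t e he
      constructor
      · rintro rfl; rcases this with h | h
        · exact h1 h.symm
        · exact h2 h.symm
      · rintro rfl; rcases this with h | h
        · exact h3 h.symm
        · exact h4 h.symm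
    have n1 := hlu x
    have n2 := hlu y
    have n3 := hB x
    have n4 := hB y
    have n5 : u x ≠ u y := fun h => hxy' (hu _ _ h)
    have n6 := hne y x
    have n7 := hne x y
    rcases lt_trichotomy (u x) (l y) with c | c | c
    · -- x x y y
      rw [filterMap_range_eq h B [l x, u x, l y, u y] (by
        rw [List.sortedLT_iff_pairwise]; simp; omega) (by simp; omega) (by
          intro t ht; simp at ht; apply hnone <;> tauto)]
      simp [hlx, hux, hly, huy, List.isChain_cons_cons]
      omega
    · exact absurd c.symm n6
    · rcases lt_or_gt_of_ne n5 with d | d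
      · -- x y x y
        rw [filterMap_range_eq h B [l x, l y, u x, u y] (by
          rw [List.sortedLT_iff_pairwise]; simp; omega) (by simp; omega) (by
          intro t ht; simp at ht; apply hnone <;> tauto)]
        simp [hlx, hux, hly, huy, List.isChain_cons_cons, hxy', hxy'.symm, c, d]
        exact ⟨by simpa using hmem x, by simpa using hmem y⟩
      · rw [filterMap_range_eq h B [l x, l y, u y, u x] (by
          rw [List.sortedLT_iff_pairwise]; simp; omega) (by simp; omega) (by
          intro t ht; simp at ht; apply hnone <;> tauto)]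
        simp [hlx, hux, hly, huy, List.isChain_cons_cons, hxy', hxy'.symm]
        omega
  refine ⟨(List.range B).filterMap g, hmem, ?_⟩
  intro x y hxy
  rcases lt_trichotomy (l x) (l y) with c | c | c
  · rw [main x y c, hadj x y c]
  · exact absurd (hl _ _ c) hxy
  · rw [alternate_symm, main y x c, SimpleGraph.adj_comm, hadj y x c]

end circle

section fan

/-- the infinite fan: a hub `none` joined to every vertex of a one-way infinite path -/
def fan : SimpleGraph (Option ℕ) :=
  SimpleGraph.fromRel (fun a b => a = none ∨ ∃ i, a = some i ∧ b = some (i + 1))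

/-- names of the edges of the fan -/
def code : ℕ ⊕ ℕ → Sym2 (Option ℕ)
  | Sum.inl i => s(none, some i)
  | Sum.inr i => s(some i, some (i + 1))

lemma code_surj (e : Sym2 (Option ℕ)) (he : e ∈ fan.edgeSet) : ∃ c, e = code c := by
  induction e with
  | _ a b =>
    rw [SimpleGraph.mem_edgeSet, fan, SimpleGraph.fromRel_adj] at he
    obtain ⟨hne, h⟩ := he
    rcases h with (h | ⟨i, h1, h2⟩) | (h | ⟨i, h1, h2⟩)
    · subst h
      cases b with
      | none => exact absurd rfl hne
      | some i => exact ⟨Sum.inl i, rfl⟩
    · subst h1; subst h2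
      exact ⟨Sum.inr i, rfl⟩
    · subst h
      cases a with
      | none => exact absurd rfl hne
      | some i => exact ⟨Sum.inl i, Sym2.eq_swap⟩
    · subst h1; subst h2
      exact ⟨Sum.inr i, Sym2.eq_swap⟩

/-- left endpoint of the chord of an edge of the fan -/
def lpos : ℕ ⊕ ℕ → ℕ
  | Sum.inl i => 3 * i + 1
  | Sum.inr i => 3 * i

/-- right endpoint of the chord of an edge of the fan -/
def upos (L : ℕ) : ℕ ⊕ ℕ → ℕ
  | Sum.inl i => 3 * L + 10 + i
  | Sum.inr i => 3 * i + 5

/-- index -/
def idx : ℕ ⊕ ℕ → ℕ
  | Sum.inl i => i
  | Sum.inr i => i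

lemma lineGraph_rep_of_copy_fan {k : ℕ} (H : SimpleGraph (Fin k)) (f : H.Copy fan) :
    Representable H.lineGraph := by
  classical
  have hφ : ∀ e : H.edgeSet, ∃ c, (f.toLineGraphEmbedding e).val = code c := by
    intro e
    exact code_surj _ (f.toLineGraphEmbedding e).2
  choose c hc using hφ
  obtain ⟨L, hL⟩ : ∃ L, ∀ e, idx (c e) ≤ L := by
    cases nonempty_fintype H.edgeSet
    exact ⟨Finset.univ.sup (fun e => idx (c e)),
      fun e => Finset.le_sup (f := fun e => idx (c e)) (Finset.mem_univ e)⟩
  have hinj : ∀ e e', c e = c e' → e = e' := by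
    intro e e' h
    apply f.toLineGraphEmbedding.injective
    apply Subtype.ext
    rw [hc, hc, h]
  apply representable_of_intervals H.lineGraph (fun e => lpos (c e)) (fun e => upos L (c e))
  · intro e
    have := hL e
    cases h : c e with
    | inl i => rw [h] at this; simp only [lpos, upos, idx] at *; omega
    | inr i => simp only [lpos, upos]; omega
  · intro e e' h
    apply hinj
    cases h1 : c e with
    | inl i =>
      cases h2 : c e' with
      | inl j => simp only [h1, h2, lpos] at h; congr 1; omega
      | inr j => simp only [h1, h2, lpos] at h; omega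
    | inr i =>
      cases h2 : c e' with
      | inl j => simp only [h1, h2, lpos] at h; omega
      | inr j => simp only [h1, h2, lpos] at h; congr 1; omega
  · intro e e' h
    apply hinj
    have b1 := hL e
    have b2 := hL e'
    cases h1 : c e with
    | inl i =>
      cases h2 : c e' with
      | inl j => simp only [h1, h2, upos] at h; congr 1; omega
      | inr j => simp only [h1, h2, upos, idx] at h b1 b2; omega
    | inr i =>
      cases h2 : c e' with
      | inl j => simp only [h1, h2, upos, idx] at h b1 b2; omega
      | inr j => simp only [h1, h2, upos] at h; congr 1; omega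
  · intro e e' h
    have b1 := hL e
    have b2 := hL e'
    cases h1 : c e with
    | inl i =>
      cases h2 : c e' with
      | inl j => simp only [h1, h2, lpos, upos, idx] at h b1 b2; omega
      | inr j => simp only [h1, h2, lpos, upos, idx] at h b1 b2; omega
    | inr i =>
      cases h2 : c e' with
      | inl j => simp only [h1, h2, lpos, upos, idx] at h b1 b2; omega
      | inr j => simp only [h1, h2, lpos, upos, idx] at h b1 b2; omega
  · intro e e' h
    have b1 := hL e
    have b2 := hL e'
    have hne : e ≠ e' := by
      rintro rfl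
      exact lt_irrefl _ h
    have hne' : f.toLineGraphEmbedding e ≠ f.toLineGraphEmbedding e' :=
      fun h => hne (f.toLineGraphEmbedding.injective h)
    rw [← f.toLineGraphEmbedding.map_adj_iff, SimpleGraph.lineGraph_adj_iff_exists]
    simp only [ne_eq, hne', not_false_eq_true, true_and]
    rw [hc, hc]
    cases h1 : c e with
    | inl i =>
      cases h2 : c e' with
      | inl j =>
        simp only [h1, h2, lpos, upos, idx] at h b1 b2 ⊢
        constructor
        · intro _; omega
        · intro _
          exact ⟨none, by simp [code], by simp [code]⟩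
      | inr j =>
        simp only [h1, h2, lpos, upos, idx] at h b1 b2 ⊢
        constructor
        · rintro ⟨v, hv1, hv2⟩
          exfalso
          simp only [code, Sym2.mem_iff] at hv1 hv2
          rcases hv1 with rfl | rfl
          · simp at hv2
          · simp only [Option.some.injEq] at hv2
            omega
        · intro _; omega
    | inr i =>
      cases h2 : c e' with
      | inl j =>
        simp only [h1, h2, lpos, upos, idx] at h b1 b2 ⊢
        constructor
        · rintro ⟨v, hv1, hv2⟩
          simp only [code, Sym2.mem_iff] at hv1 hv2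
          rcases hv2 with rfl | rfl
          · simp at hv1
          · simp only [Option.some.injEq] at hv1
            omega
        · intro hh
          refine ⟨some j, ?_, by simp [code]⟩
          simp only [code, Sym2.mem_iff, Option.some.injEq]
          omega
      | inr j =>
        simp only [h1, h2, lpos, upos, idx] at h b1 b2 ⊢
        constructor
        · rintro ⟨v, hv1, hv2⟩
          simp only [code, Sym2.mem_iff] at hv1 hv2
          rcases hv2 with rfl | rfl <;>
          · simp only [Option.some.injEq] at hv1
            omega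
        · intro hh
          refine ⟨some j, ?_, by simp [code]⟩
          simp only [code, Sym2.mem_iff, Option.some.injEq]
          omega

end fan

section wheel

/-- order-theoretic consequence of representability -/
def HasOrder {α : Type} (G : SimpleGraph α) : Prop :=
  ∃ lt : α → α → Prop, (∀ x, ¬ lt x x) ∧ (∀ x y z, lt x y → lt y z → lt x z) ∧
      (∀ x y, G.Adj x y → lt x y ∨ lt y x) ∧
      (∀ x y z, lt x y → lt y z → G.Adj x z → G.Adj x y ∧ G.Adj y z)

lemma HasOrder.comap {α β : Type} {G : SimpleGraph α} {G' : SimpleGraph β} (φ : G ↪g G')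
    (h : HasOrder G') : HasOrder G := by
  obtain ⟨lt, h1, h2, h3, h4⟩ := h
  refine ⟨fun x y => lt (φ x) (φ y), fun x => h1 _, fun x y z => h2 _ _ _, ?_, ?_⟩
  · intro x y hxy
    exact h3 _ _ (φ.map_adj_iff.2 hxy)
  · intro x y z hxy hyz hxz
    have := h4 _ _ _ hxy hyz (φ.map_adj_iff.2 hxz)
    exact ⟨φ.map_adj_iff.1 this.1, φ.map_adj_iff.1 this.2⟩

/-- the wheel with hub `inl false` and rim `inr i` (`i : ZMod n`), with one more vertex `inl true`
adjacent to the hub only -/
def wheel (n : ℕ) : SimpleGraph (Bool ⊕ ZMod n) :=
  SimpleGraph.fromRel (fun a b => a = Sum.inl false ∨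
    ∃ i : ZMod n, a = Sum.inr i ∧ b = Sum.inr (i + 1))

variable {n : ℕ}

/-- outer end of a spoke -/
def tip : Option (ZMod n) → Bool ⊕ ZMod n
  | none => Sum.inl true
  | some i => Sum.inr i

lemma tip_inj {a b : Option (ZMod n)} (h : tip a = tip b) : a = b := by
  cases a <;> cases b <;> simp_all [tip]

lemma tip_ne (a : Option (ZMod n)) : tip a ≠ Sum.inl false := by
  cases a <;> simp [tip]

/-- spokes -/
def spoke (a : Option (ZMod n)) : (wheel n).edgeSet :=
  ⟨s(Sum.inl false, tip a), by
    rw [SimpleGraph.mem_edgeSet, wheel, SimpleGraph.fromRel_adj]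
    exact ⟨(tip_ne a).symm, Or.inl (Or.inl rfl)⟩⟩

lemma one_ne (hn : 3 ≤ n) : (1 : ZMod n) ≠ 0 := by
  intro h
  have : ((1 : ℕ) : ZMod n) = 0 := by simpa using h
  rw [ZMod.natCast_eq_zero_iff] at this
  have := Nat.le_of_dvd (by norm_num) this
  omega

lemma two_ne (hn : 3 ≤ n) : (2 : ZMod n) ≠ 0 := by
  intro h
  have : ((2 : ℕ) : ZMod n) = 0 := by simpa using h
  rw [ZMod.natCast_eq_zero_iff] at this
  have := Nat.le_of_dvd (by norm_num) this
  omega

/-- rim edges -/
def rim (hn : 3 ≤ n) (i : ZMod n) : (wheel n).edgeSet :=
  ⟨s(Sum.inr i, Sum.inr (i + 1)), by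
    rw [SimpleGraph.mem_edgeSet, wheel, SimpleGraph.fromRel_adj]
    refine ⟨?_, Or.inl (Or.inr ⟨i, rfl, rfl⟩)⟩
    intro h
    have := Sum.inr_injective h
    exact one_ne hn (by simpa using this)⟩

lemma spoke_adj {a b : Option (ZMod n)} (h : a ≠ b) :
    (wheel n).lineGraph.Adj (spoke a) (spoke b) := by
  rw [SimpleGraph.lineGraph_adj_iff_exists]
  refine ⟨?_, Sum.inl false, by simp [spoke], by simp [spoke]⟩
  intro hh
  have := congrArg Subtype.val hh
  simp only [spoke, Sym2.eq_iff] at this
  rcases this with ⟨_, h1⟩ | ⟨h1, _⟩
  · exact h (tip_inj h1)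
  · exact tip_ne _ h1.symm

lemma rim_spoke_adj (hn : 3 ≤ n) (i : ZMod n) (a : Option (ZMod n)) :
    (wheel n).lineGraph.Adj (rim hn i) (spoke a) ↔ a = some i ∨ a = some (i + 1) := by
  rw [SimpleGraph.lineGraph_adj_iff_exists]
  constructor
  · rintro ⟨_, v, hv1, hv2⟩
    simp only [rim, spoke, Sym2.mem_iff] at hv1 hv2
    rcases hv2 with rfl | rfl
    · simp at hv1
    · rcases hv1 with h | h
      · left; exact tip_inj (h.trans rfl)
      · right; exact tip_inj (h.trans rfl)
  · intro h
    refine ⟨?_, tip a, ?_, by simp [spoke]⟩
    · intro hh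
      have := congrArg Subtype.val hh
      simp only [spoke, rim, Sym2.eq_iff] at this
      rcases this with ⟨h1, _⟩ | ⟨_, h1⟩
      · simp at h1
      · simp at h1
    · rcases h with rfl | rfl <;> simp [rim, tip]

lemma cyc_step (hn : 3 ≤ n) (B : ZMod n → Prop) (a b : ZMod n) (ha : B a) (hb : ¬ B b) :
    ∃ i, B i ∧ ¬ B (i + 1) := by
  by_contra hcon
  push Not at hcon
  have : NeZero n := ⟨by omega⟩
  have : ∀ k : ℕ, B (a + k) := by
    intro k
    induction k with
    | zero => simpa using ha
    | succ k ih =>
      have := hcon _ ih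
      rw [add_assoc] at this
      simpa using this
  apply hb
  have := this (b - a).val
  rw [ZMod.natCast_zmod_val] at this
  simpa using this

theorem wheel_no_order (hn : 3 ≤ n) : ¬ HasOrder (wheel n).lineGraph := by
  rintro ⟨lt, irr, tr, cmp, conv⟩
  have : NeZero n := ⟨by omega⟩
  have asymm : ∀ x y, lt x y → ¬ lt y x := fun x y h h' => irr _ (tr _ _ _ h h')
  have scmp : ∀ a b : Option (ZMod n), a ≠ b → lt (spoke a) (spoke b) ∨ lt (spoke b) (spoke a) :=
    fun a b h => cmp _ _ (spoke_adj h)
  -- F1
  have F1 : ∀ (i : ZMod n) (x y : Option (ZMod n)),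
      (x = some i ∨ x = some (i+1)) → (y = some i ∨ y = some (i+1)) → lt (spoke x) (spoke y) →
      (∀ e, e ≠ some i → e ≠ some (i+1) → ¬ (lt (spoke x) (spoke e) ∧ lt (spoke e) (spoke y))) ∨
      (∀ e, e ≠ some i → e ≠ some (i+1) → (lt (spoke x) (spoke e) ∧ lt (spoke e) (spoke y))) := by
    intro i x y hx hy hxy
    have ax := (rim_spoke_adj hn i x).2 hx
    have ay := (rim_spoke_adj hn i y).2 hy
    rcases cmp _ _ ax with c1 | c1
    · left
      rintro e he1 he2 ⟨h1, h2⟩
      have := (conv _ _ _ (tr _ _ _ c1 h1) h2 ay).1
      rw [rim_spoke_adj] at this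
      tauto
    · rcases cmp _ _ ay with c2 | c2
      · right
        intro e he1 he2
        have hxe : x ≠ e := by rintro rfl; tauto
        have hye : e ≠ y := by rintro rfl; tauto
        constructor
        · rcases scmp x e hxe with h | h
          · exact h
          · exfalso
            have := (conv _ _ _ (tr _ _ _ h c1) c2 (spoke_adj hye)).1
            rw [SimpleGraph.adj_comm, rim_spoke_adj] at this
            tauto
        · rcases scmp e y hye with h | h
          · exact h
          · exfalso
            have := (conv _ _ _ c1 (tr _ _ _ c2 h) (spoke_adj hxe)).2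
            rw [rim_spoke_adj] at this
            tauto
      · left
        rintro e he1 he2 ⟨h1, h2⟩
        have := (conv _ _ _ h1 (tr _ _ _ h2 c2) ax.symm).2
        rw [SimpleGraph.adj_comm, rim_spoke_adj] at this
        tauto
  -- the maximal rim spoke
  obtain ⟨M, hM⟩ : ∃ M : ZMod n, ∀ j, j ≠ M → lt (spoke (some j)) (spoke (some M)) := by
    have hfin : ∀ (s : Finset (ZMod n)), s.Nonempty →
        ∃ M ∈ s, ∀ j ∈ s, j ≠ M → lt (spoke (some j)) (spoke (some M)) := by
      intro s hs
      induction hs using Finset.Nonempty.cons_induction with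
      | singleton a => exact ⟨a, by simp, by simp⟩
      | cons a s ha hs ih =>
        obtain ⟨M, hMs, hM⟩ := ih
        have haM : a ≠ M := by rintro rfl; exact ha hMs
        rcases scmp (some a) (some M) (by simpa using haM) with h | h
        · refine ⟨M, by simp [hMs], ?_⟩
          intro j hj hjM
          rw [Finset.mem_cons] at hj
          rcases hj with rfl | hj
          · exact h
          · exact hM j hj hjM
        · refine ⟨a, by simp, ?_⟩
          intro j hj hja
          rw [Finset.mem_cons] at hj
          rcases hj with rfl | hj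
          · exact absurd rfl hja
          · by_cases hjM : j = M
            · subst hjM; exact h
            · exact tr _ _ _ (hM j hj hjM) h
    obtain ⟨M, _, hM⟩ := hfin Finset.univ ⟨0, Finset.mem_univ _⟩
    exact ⟨M, fun j hj => hM j (Finset.mem_univ _) hj⟩
  set B : ZMod n → Prop := fun i => lt (spoke (some i)) (spoke none) with hB
  have hBn : ∀ i, ¬ B i → lt (spoke none) (spoke (some i)) := by
    intro i hi
    rcases scmp (some i) none (by simp) with h | h
    · exact absurd h hi
    · exact h
  have e1 : M - 1 ≠ M := fun h => one_ne hn (by simpa using h)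
  have e2 : M + 1 ≠ M := fun h => one_ne hn (by simpa using h)
  have e3 : M - 1 ≠ M + 1 := by
    intro h
    apply two_ne hn
    have : (M + 1) - (M - 1) = 0 := by rw [h]; ring
    rw [← this]; ring
  obtain ⟨a, ha, b, hb⟩ : ∃ a, B a ∧ ∃ b, ¬ B b := by
    rcases scmp (some (M-1)) (some (M+1)) (by simpa using e3) with h | h
    · rcases F1 (M-1) (some (M-1)) (some M) (Or.inl rfl) (Or.inr (by simp))
        (hM _ e1) with h' | h'
      · exact absurd ⟨h, hM _ e2⟩ (h' (some (M+1)) (by simpa using e3.symm) (by simp [e2]))
      · have := h' none (by simp) (by simp)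
        exact ⟨M-1, this.1, M, asymm _ _ this.2⟩
    · rcases F1 M (some (M+1)) (some M) (Or.inr rfl) (Or.inl rfl)
        (hM _ e2) with h' | h'
      · exact absurd ⟨h, hM _ e1⟩ (h' (some (M-1)) (by simpa using e1) (by simpa using e3))
      · have := h' none (by simp) (by simp)
        exact ⟨M+1, this.1, M, asymm _ _ this.2⟩
  obtain ⟨i, hi1, hi2⟩ := cyc_step hn B a b ha hb
  obtain ⟨j, hj1, hj2⟩ := cyc_step hn (fun i => ¬ B i) b a hb (by simpa using ha)
  have hj2' : B (j+1) := by simpa using hj2
  have hij : i ≠ j := by rintro rfl; exact hj1 hi1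
  have Gi : ∀ e, e ≠ some i → e ≠ some (i+1) →
      (lt (spoke (some i)) (spoke e) ∧ lt (spoke e) (spoke (some (i+1)))) := by
    rcases F1 i (some i) (some (i+1)) (Or.inl rfl) (Or.inr rfl)
      (tr _ _ _ hi1 (hBn _ hi2)) with h' | h'
    · exact absurd ⟨hi1, hBn _ hi2⟩ (h' none (by simp) (by simp))
    · exact h'
  have Gj : ∀ e, e ≠ some j → e ≠ some (j+1) →
      (lt (spoke (some (j+1))) (spoke e) ∧ lt (spoke e) (spoke (some j))) := by
    rcases F1 j (some (j+1)) (some j) (Or.inr rfl) (Or.inl rfl)
      (tr _ _ _ hj2' (hBn _ hj1)) with h' | h'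
    · exact absurd ⟨hj2', hBn _ hj1⟩ (h' none (by simp) (by simp))
    · exact h'
  have k1 : i = j + 1 := by
    by_contra hne
    have a1 := (Gj (some i) (by simpa using hij) (by simpa using hne)).1
    have a2 := (Gi (some (j+1)) (by simpa using fun h => hne h.symm)
      (by simpa using fun h : j = i => hij h.symm)).1
    exact asymm _ _ a1 a2
  have k2 : i + 1 = j := by
    by_contra hne
    have a1 := (Gj (some (i+1)) (by simpa using hne) (by simpa using hij)).2
    have a2 := (Gi (some j) (by simpa using fun h : j = i => hij h.symm)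
      (by simpa using fun h => hne h.symm)).2
    exact asymm _ _ a1 a2
  apply two_ne hn
  have : j + 1 + 1 = j := by rw [← k1]; exact k2
  have h2 : (j + 1 + 1) - j = 0 := by rw [this]; ring
  rw [← h2]; ring

/-- a subgraph of the wheel (with pendant) missing a rim vertex embeds in the fan -/
lemma copy_fan_of_miss (hn : 3 ≤ n) {k : ℕ} (H : SimpleGraph (Fin k)) (f : H.Copy (wheel n))
    (j : ZMod n) (hj : ∀ v, f v ≠ Sum.inr j) : Nonempty (H.Copy fan) := by
  have : NeZero n := ⟨by omega⟩
  let ψ : Bool ⊕ ZMod n → Option ℕ := fun x => match x with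
    | Sum.inl false => none
    | Sum.inl true => some (n + 5)
    | Sum.inr a => some (a - j - 1).val
  have hψ : Function.Injective ψ := by
    intro x y hxy
    rcases x with (_ | _) | a <;> rcases y with (_ | _) | b <;> simp only [ψ] at hxy
    · rfl
    · simp at hxy
    · simp at hxy
    · simp at hxy
    · rfl
    · simp only [Option.some.injEq] at hxy
      have := ZMod.val_lt (b - j - 1)
      omega
    · simp at hxy
    · simp only [Option.some.injEq] at hxy
      have := ZMod.val_lt (a - j - 1)
      omega
    · simp only [Option.some.injEq] at hxy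
      have := ZMod.val_injective n hxy
      have h2 : a = b := by
        have : (a - j - 1) + (j + 1) = (b - j - 1) + (j + 1) := by rw [this]
        simpa using this
      rw [h2]
  have hstep : ∀ a : ZMod n, a ≠ j → ((a + 1) - j - 1).val = (a - j - 1).val + 1 := by
    intro a ha
    have h1 : (a + 1) - j - 1 = (a - j - 1) + 1 := by ring
    rw [h1, ZMod.val_add, ZMod.val_one_eq_one_mod, Nat.mod_eq_of_lt (show 1 < n by omega)]
    apply Nat.mod_eq_of_lt
    have h2 := ZMod.val_lt (a - j - 1)
    have h3 : (a - j - 1).val + 1 ≠ n := by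
      intro h
      apply ha
      have h4 : (((a - j - 1).val + 1 : ℕ) : ZMod n) = 0 := by rw [h]; simp
      push_cast at h4
      rw [ZMod.natCast_zmod_val] at h4
      have : a - j = 0 := by rw [← h4]; ring
      exact sub_eq_zero.1 this
    omega
  refine ⟨⟨⟨fun v => ψ (f v), ?_⟩, fun x y h => f.injective (hψ h)⟩⟩
  intro u v huv
  have hadj : (wheel n).Adj (f u) (f v) := f.toHom.map_adj huv
  have hne : ψ (f u) ≠ ψ (f v) := fun h => hadj.ne (hψ h)
  have hadj2 := (SimpleGraph.fromRel_adj _ (f u) (f v)).1 hadj
  refine (SimpleGraph.fromRel_adj _ (ψ (f u)) (ψ (f v))).2 ⟨hne, ?_⟩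
  rcases hadj2.2 with (h | ⟨i, h1, h2⟩) | (h | ⟨i, h1, h2⟩)
  · left; left; simp only [h, ψ]
  · left; right
    refine ⟨(i - j - 1).val, by simp only [h1, ψ], ?_⟩
    have : i ≠ j := by rintro rfl; exact hj _ h1
    simp only [h2, ψ]
    rw [hstep i this]
  · right; left; simp only [h, ψ]
  · right; right
    refine ⟨(i - j - 1).val, by simp only [h1, ψ], ?_⟩
    have : i ≠ j := by rintro rfl; exact hj _ h1
    simp only [h2, ψ]
    rw [hstep i this]

end wheel

/-- **No finite family.** There is no finite family `F` of finite graphs such that, for every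
finite graph `G`, the line graph `L(G)` is word-representable exactly when no member of `F` is
isomorphic to a subgraph of `G`. -/
theorem result : ¬ ∃ F : Set (Σ n : ℕ, SimpleGraph (Fin n)), F.Finite ∧
    ∀ (n : ℕ) (G : SimpleGraph (Fin n)),
      Representable G.lineGraph ↔ ∀ H ∈ F, H.2.Free G := by
  rintro ⟨F, hF, hiff⟩
  obtain ⟨N, hN⟩ : ∃ N, ∀ H ∈ F, H.1 < N := by
    obtain ⟨N, hN⟩ := (hF.image (fun H => H.1)).bddAbove
    exact ⟨N + 1, fun H hH => Nat.lt_succ_of_le (hN ⟨H, hH, rfl⟩)⟩
  set n := N + 3 with hn
  have hn3 : 3 ≤ n := by omega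
  have : NeZero n := ⟨by omega⟩
  let iso := (wheel n).overFinIso (rfl : Fintype.card (Bool ⊕ ZMod n) = _)
  have hnr : ¬ Representable ((wheel n).overFin rfl).lineGraph := by
    intro h
    have h1 : HasOrder ((wheel n).overFin rfl).lineGraph := exists_order h
    exact wheel_no_order hn3 (h1.comap iso.toCopy.toLineGraphEmbedding)
  rw [hiff] at hnr
  push Not at hnr
  obtain ⟨H, hH, hcont⟩ := hnr
  obtain ⟨f⟩ := hcont
  have f' : H.2.Copy (wheel n) := iso.symm.toCopy.comp f
  have hmiss : ∃ j : ZMod n, ∀ v, f' v ≠ Sum.inr j := by
    by_contra hcon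
    push Not at hcon
    choose v hv using hcon
    have hinj : Function.Injective v := by
      intro a b hab
      have := hv a
      rw [hab, hv b] at this
      exact (Sum.inr_injective this).symm
    have := Fintype.card_le_of_injective v hinj
    rw [ZMod.card, Fintype.card_fin] at this
    have := hN H hH
    omega
  obtain ⟨j, hj⟩ := hmiss
  obtain ⟨f''⟩ := copy_fan_of_miss hn3 H.2 f' j hj
  have hrep := lineGraph_rep_of_copy_fan H.2 f''
  exact (hiff H.1 H.2).1 hrep H hH (SimpleGraph.IsContained.refl _)

end Pool.Agent.Results.MP_c3beeb_co.NoFiniteFamily
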